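import Mathlib
import Pool.Agent.H148.EW5
import Pool.Agent.H148.EW6
import Pool.Agent.H148.EW7

/-!
# Total variation Berry-Esseen bound for two-valued expander walks, without any loss
-/

set_option autoImplicit false
set_option maxHeartbeats 4000000

namespace Pool.Agent.Results.MP_866acd_pr.ExpanderWalkTV

open Finset Filter Topology Pool.Agent.H148.EW

/-- A finite regular graph on the vertex set `V`, with loops and multiple edges allowed:
`mult v w` is the number of edges from `v` to `w`. -/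
structure RegGraph (V : Type) [Fintype V] where
  mult : V → V → ℕ
  symm : ∀ v w, mult v w = mult w v
  deg : ℕ
  deg_pos : 0 < deg
  reg : ∀ v, ∑ w, mult v w = deg

variable {V : Type} [Fintype V]

/-- The normalised random walk matrix. -/
noncomputable def RegGraph.W (G : RegGraph V) (v w : V) : ℝ := (G.mult v w : ℝ) / G.deg

/-- `G` is a `lam`-spectral expander: every eigenvalue of `W` which has an eigenvector orthogonal
to the constants has absolute value at most `lam`. -/
def RegGraph.IsExpander (G : RegGraph V) (lam : ℝ) : Prop :=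
  ∀ (μ : ℝ) (f : V → ℝ), f ≠ 0 → ∑ v, f v = 0 → (∀ v, ∑ w, G.W v w * f w = μ * f v) → |μ| ≤ lam

/-- The labelling `val` has weights `(p0, p1)`. -/
def HasWeights (val : V → Fin 2) (p0 p1 : ℝ) : Prop :=
  ((univ.filter fun v => val v = 0).card : ℝ) = p0 * Fintype.card V ∧
  ((univ.filter fun v => val v = 1).card : ℝ) = p1 * Fintype.card V

/-- The uniform distribution. -/
noncomputable def unif (V : Type) [Fintype V] : V → ℝ := fun _ => 1 / (Fintype.card V : ℝ)

/-- Expectation of `F (v_0, ..., v_n)` for the Markov chain with initial distribution `π` and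
transition matrix `K`. -/
noncomputable def expect (π : V → ℝ) (K : V → V → ℝ) (n : ℕ) (F : (Fin (n + 1) → V) → ℝ) : ℝ :=
  ∑ x : Fin (n + 1) → V, π (x 0) * (∏ i : Fin n, K (x i.castSucc) (x i.succ)) * F x

/-- The probability that `val (v_0) + ... + val (v_n) = j`. -/
noncomputable def law (π : V → ℝ) (K : V → V → ℝ) (val : V → Fin 2) (n j : ℕ) : ℝ :=
  expect π K n fun x => if ∑ i, (val (x i) : ℕ) = j then 1 else 0

/-- The variance of `val (v_0) + ... + val (v_n)`. -/
noncomputable def var (π : V → ℝ) (K : V → V → ℝ) (val : V → Fin 2) (n : ℕ) : ℝ :=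
  expect π K n (fun x => (∑ i, ((val (x i) : ℕ) : ℝ)) ^ 2)
    - expect π K n (fun x => ∑ i, ((val (x i) : ℕ) : ℝ)) ^ 2

/-- The asymptotic variance `lim Var(S_t) / t` is `σ2`. -/
def HasAsympVar (π : V → ℝ) (K : V → V → ℝ) (val : V → Fin 2) (σ2 : ℝ) : Prop :=
  Tendsto (fun n : ℕ => var π K val n / ((n : ℝ) + 1)) atTop (𝓝 σ2)

/-- The total variation distance of two distributions on `ℕ`. -/
noncomputable def tv (P Q : ℕ → ℝ) : ℝ := (∑' j, |P j - Q j|) / 2

/-- The transition matrix of the sticky walk on `{0, 1}`. -/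
noncomputable def sticky (p : Fin 2 → ℝ) (ν : ℝ) (b b' : Fin 2) : ℝ :=
  (1 - ν) * p b' + ν * (if b = b' then 1 else 0)

/-- the centred labelling -/
noncomputable def cen (val : V → Fin 2) (p1 : ℝ) (v : V) : ℝ := ((val v : ℕ) : ℝ) - p1

lemma expect_eq (π : V → ℝ) (K : V → V → ℝ) (n : ℕ) (F : (Fin (n + 1) → V) → ℝ) :
    expect π K n F = psum π K n F := rfl

omit [Fintype V] in
lemma cen_cases {val : V → Fin 2} {p0 p1 : ℝ} (hp : p0 + p1 = 1) (v : V) :
    cen val p1 v = p0 ∨ cen val p1 v = -p1 := by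
  unfold cen
  have : val v = 0 ∨ val v = 1 := by
    rcases Fin.exists_fin_two.mp ⟨val v, rfl⟩ with h | h
    · exact Or.inl h
    · exact Or.inr h
  rcases this with h | h <;> rw [h]
  · right; simp
  · left; simp; linarith

lemma sum_val {val : V → Fin 2} {p0 p1 : ℝ} (hw : HasWeights val p0 p1) (F : Fin 2 → ℝ) :
    ∑ v, F (val v) = (F 0 * p0 + F 1 * p1) * Fintype.card V := by
  have h1 : ∀ v, F (val v) = F 0 * (if val v = 0 then 1 else 0)
      + F 1 * (if val v = 1 then 1 else 0) := by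
    intro v
    have : val v = 0 ∨ val v = 1 := by
      rcases Fin.exists_fin_two.mp ⟨val v, rfl⟩ with h | h
      · exact Or.inl h
      · exact Or.inr h
    rcases this with h | h <;> rw [h] <;> simp
  simp only [h1, sum_add_distrib, ← mul_sum, sum_boole]
  rw [hw.1, hw.2]
  ring

lemma var_eq {π : V → ℝ} {K : V → V → ℝ} {val : V → Fin 2} {p1 p ℓ : ℝ}
    (S : Sys π K (cen val p1) p ℓ) (n : ℕ) :
    var π K val n = Zn π K (cen val p1) n := by
  unfold var
  simp only [expect_eq]
  have h1 : ∀ x : Fin (n + 1) → V, ∑ i, ((val (x i) : ℕ) : ℝ)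
      = ((n + 1 : ℝ) * p1) * 1 + ∑ i, cen val p1 (x i) := by
    intro x
    simp only [cen, sum_sub_distrib, sum_const, card_univ, Fintype.card_fin, nsmul_eq_mul]
    push_cast; ring
  have h2 : psum π K n (fun x => ∑ i, ((val (x i) : ℕ) : ℝ)) = (n + 1 : ℝ) * p1 := by
    simp only [h1]
    rw [psum_add, psum_smul, psum_one S.row, S.tot, psum_sum S.row, S.bet_mean]
    ring
  have h3 : psum π K n (fun x => (∑ i, ((val (x i) : ℕ) : ℝ)) ^ 2)
      = ((n + 1 : ℝ) * p1) ^ 2 + Zn π K (cen val p1) n := by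
    have h4 : (fun x : Fin (n + 1) → V => (∑ i, ((val (x i) : ℕ) : ℝ)) ^ 2)
        = fun x => (((n + 1 : ℝ) * p1) ^ 2 * 1 + (2 * ((n + 1 : ℝ) * p1)) * ∑ i, cen val p1 (x i))
          + (∑ i, cen val p1 (x i)) ^ 2 := by
      funext x
      rw [h1 x]; ring
    rw [h4, psum_add, psum_add, psum_smul, psum_smul, psum_one S.row, S.tot, psum_sum S.row,
      S.bet_mean, psum_sq S.row]
    unfold Zn
    ring
  rw [h2, h3]; ring

omit [Fintype V] in
lemma total_lt (val : V → Fin 2) (n : ℕ) (x : Fin (n + 1) → V) :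
    ∑ i, (val (x i) : ℕ) < n + 2 := by
  have : ∑ i, (val (x i) : ℕ) ≤ ∑ _i : Fin (n + 1), 1 :=
    sum_le_sum fun i _ => by have := (val (x i)).isLt; omega
  simp at this
  omega

/-- the generating function of the law -/
lemma law_gen {π : V → ℝ} {K : V → V → ℝ} {val : V → Fin 2} {p1 p ℓ : ℝ}
    (S : Sys π K (cen val p1) p ℓ) (n : ℕ) (ζ : ℂ) :
    ∑ j ∈ range (n + 2), (law π K val n j : ℂ) * Complex.exp (ζ * ((j - (n + 1 : ℝ) * p1 : ℝ) : ℂ))
      = phi π K (fun v => Complex.exp (ζ * (cen val p1 v : ℝ))) (n + 1) := by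
  have h0 : phi π K (fun v => Complex.exp (ζ * (cen val p1 v : ℝ))) (n + 1)
      = psum (fun v => (π v : ℂ)) (fun v w => (K v w : ℂ)) n
        (fun x => ∏ i, Complex.exp (ζ * (cen val p1 (x i) : ℝ))) := by
    exact (psum_prod S.row (fun v => Complex.exp (ζ * (cen val p1 v : ℝ))) n
      (fun v => (π v : ℂ))).symm
  rw [h0]
  unfold psum law expect
  simp only [Complex.ofReal_sum, sum_mul]
  rw [sum_comm]
  refine sum_congr rfl fun x _ => ?_
  have h1 : ∏ i, Complex.exp (ζ * (cen val p1 (x i) : ℝ))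
      = Complex.exp (ζ * (((∑ i, (val (x i) : ℕ) : ℕ) - (n + 1 : ℝ) * p1 : ℝ) : ℂ)) := by
    rw [← Complex.exp_sum, ← mul_sum, ← Complex.ofReal_sum]
    congr 3
    simp only [cen, sum_sub_distrib, sum_const, card_univ, Fintype.card_fin, nsmul_eq_mul]
    push_cast; ring
  rw [h1]
  rw [sum_eq_single (∑ i, (val (x i) : ℕ))]
  · rw [if_pos rfl]
    push_cast
    ring
  · intro j _ hj
    rw [if_neg (fun h => hj h.symm)]
    simp
  · intro h
    exact absurd (mem_range.mpr (total_lt val n x)) h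

lemma law_zero (π : V → ℝ) (K : V → V → ℝ) (val : V → Fin 2) (n j : ℕ) (hj : n + 2 ≤ j) :
    law π K val n j = 0 := by
  unfold law expect
  apply sum_eq_zero
  intro x _
  have := total_lt val n x
  beta_reduce
  rw [if_neg (by omega), mul_zero]

lemma tv_eq {V' : Type} [Fintype V'] (π : V → ℝ) (K : V → V → ℝ) (val : V → Fin 2)
    (π' : V' → ℝ) (K' : V' → V' → ℝ) (val' : V' → Fin 2) (n : ℕ) :
    tv (law π K val n) (law π' K' val' n)
      = (∑ j ∈ range (n + 2), |law π K val n j - law π' K' val' n j|) / 2 := by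
  unfold tv
  rw [tsum_eq_sum]
  intro j hj
  have : n + 2 ≤ j := by simpa using hj
  rw [law_zero _ _ _ _ _ this, law_zero _ _ _ _ _ this, sub_zero, abs_zero]

/-- **Main theorem.** -/
theorem result (p0 p1 : ℝ) (h0 : 0 < p0) (h1 : 0 < p1) (hp : p0 + p1 = 1) :
    ∃ C : ℝ, ∀ (V : Type) [Fintype V] [Nonempty V] (G : RegGraph V) (val : V → Fin 2) (lam : ℝ),
      0 ≤ lam → lam ≤ 1 / 100 → G.IsExpander lam → HasWeights val p0 p1 →
      ∃ σ2 : ℝ, HasAsympVar (unif V) G.W val σ2 ∧
        ∀ n : ℕ,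
          tv (law (unif V) G.W val n)
              (law ![p0, p1] (sticky ![p0, p1] ((σ2 - p0 * p1) / (σ2 + p0 * p1))) id n)
            ≤ C * lam ^ 2 / Real.sqrt ((n : ℝ) + 1) ∧
          tv (law (unif V) G.W val n)
              (law ![p0, p1] (sticky ![p0, p1] ((σ2 - p0 * p1) / (σ2 + p0 * p1))) id n)
            ≤ C * lam / Real.sqrt ((n : ℝ) + 1) := by
  have hpp : 0 < p0 * p1 := mul_pos h0 h1
  set p := p0 * p1 with hpdef
  set C0 := 10 * (3200 * (8 + 16 / (p / 20) ^ 2)) * Real.sqrt (Real.pi / (p / 20)) with hC0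
  have hC00 : 0 ≤ C0 := by positivity
  refine ⟨2 * C0, ?_⟩
  intro V _ _ G val lam hl0 hl1 hexp hw
  have hdeg : (0 : ℝ) < G.deg := by exact_mod_cast G.deg_pos
  have sym : ∀ v w, G.W v w = G.W w v := by
    intro v w; unfold RegGraph.W; rw [G.symm v w]
  have row : ∀ v, ∑ w, G.W v w = 1 := by
    intro v; unfold RegGraph.W
    rw [← sum_div, ← Nat.cast_sum, G.reg v, div_self hdeg.ne']
  have hmean : ∑ v, cen val p1 v = 0 := by
    have := sum_val hw (fun b => ((b : ℕ) : ℝ) - p1)
    simp only [cen]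
    rw [this]
    have : p0 = 1 - p1 := by linarith
    rw [this]; simp; ring
  have hsq : ∑ v, cen val p1 v ^ 2 = p * (Fintype.card V : ℝ) := by
    have := sum_val hw (fun b => (((b : ℕ) : ℝ) - p1) ^ 2)
    simp only [cen]
    rw [this, hpdef]
    have : p1 = 1 - p0 := by linarith
    rw [this]; simp; ring
  have S1 : Sys (unif V) G.W (cen val p1) p lam := graph_sys sym row hl0 hexp hmean hsq
  have S2 : Sys (unif V) G.W (cen val p1) p (2 * lam) :=
    graph_sys sym row (by linarith)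
      (fun μ f hf hs he => (hexp μ f hf hs he).trans (by linarith)) hmean hsq
  obtain ⟨σ2, hmu, hvar⟩ := S1.tendsto_Zn (by linarith)
  refine ⟨σ2, ?_, ?_⟩
  · unfold HasAsympVar
    refine hvar.congr fun n => ?_
    rw [var_eq S1 n]
  -- bounds for `Γ = (σ2 - p) / 2`
  set Γ : ℝ := (σ2 - p) / 2 with hΓ
  have hΓ1 : |Γ| ≤ 100 / 99 * (p * lam) := by
    have h2 : ∀ n, ‖∑ k ∈ range n, mu (unif V) G.W (cen val p1) k‖ ≤ 100 / 99 * (p * lam) := by
      intro n
      refine (norm_sum_le _ _).trans ((sum_le_sum fun k _ => S1.mu_le k).trans ?_)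
      rw [← mul_sum]
      have h3 := geom_le hl0 (by linarith) n
      have h4 : (1 - lam)⁻¹ ≤ 100 / 99 := by
        rw [inv_le_comm₀ (by linarith) (by norm_num)]
        linarith
      calc p * lam * ∑ k ∈ range n, lam ^ k ≤ p * lam * (100 / 99) :=
            mul_le_mul_of_nonneg_left (h3.trans h4) (by positivity)
        _ = _ := by ring
    have h3 := le_of_tendsto hmu.norm (Eventually.of_forall h2)
    rwa [Complex.norm_real, Real.norm_eq_abs] at h3
  have hΓ2 := abs_le.mp hΓ1
  have hσp : σ2 + p = 2 * (p + Γ) := by rw [hΓ]; ring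
  have hσm : σ2 - p = 2 * Γ := by rw [hΓ]; ring
  have hpΓ : 98 / 99 * p ≤ p + Γ := by nlinarith
  have hpΓ0 : 0 < p + Γ := by nlinarith
  set ν : ℝ := (σ2 - p) / (σ2 + p) with hν
  have hν' : ν = Γ / (p + Γ) := by
    rw [hν, hσp, hσm, mul_div_mul_left _ _ (by norm_num)]
  have hνle : |ν| ≤ 2 * lam := by
    rw [hν', abs_div, abs_of_pos hpΓ0, div_le_iff₀ hpΓ0]
    have : 2 * lam * (98 / 99 * p) ≤ 2 * lam * (p + Γ) :=
      mul_le_mul_of_nonneg_left hpΓ (by linarith)
    have h5 : 0 ≤ p * lam := by positivity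
    nlinarith
  have hst : sticky ![p0, p1] ν = stickyK ![p0, p1] ν := rfl
  have hcen : cen (id : Fin 2 → Fin 2) p1 = ![-p1, p0] := by
    funext b
    fin_cases b
    · simp [cen]
    · simp [cen]; linarith
  have S3 : Sys ![p0, p1] (stickyK ![p0, p1] ν) (cen (id : Fin 2 → Fin 2) p1) p (2 * lam) := by
    rw [hcen]; exact sticky_sys h0 h1 hp hνle
  have hmatch : Tendsto (fun n => ∑ k ∈ range n, (mu (unif V) G.W (cen val p1) k
      - mu ![p0, p1] (stickyK ![p0, p1] ν) (cen (id : Fin 2 → Fin 2) p1) k)) atTop (𝓝 0) := by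
    have h2 : Tendsto (fun n => ∑ k ∈ range n,
        mu ![p0, p1] (stickyK ![p0, p1] ν) (cen (id : Fin 2 → Fin 2) p1) k) atTop (𝓝 (Γ : ℂ)) := by
      have h3 : ∀ n, ∑ k ∈ range n,
          mu ![p0, p1] (stickyK ![p0, p1] ν) (cen (id : Fin 2 → Fin 2) p1) k
          = ((p * ν * ∑ k ∈ range n, ν ^ k : ℝ) : ℂ) := by
        intro n
        rw [mul_sum, Complex.ofReal_sum]
        refine sum_congr rfl fun k _ => ?_
        rw [hcen, sticky_mu hp, hpdef]
        push_cast; ring
      simp only [h3]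
      apply (Complex.continuous_ofReal.tendsto _).comp
      have hν1 : |ν| < 1 := by linarith
      have h4 := (hasSum_geometric_of_abs_lt_one hν1).tendsto_sum_nat.const_mul (p * ν)
      have h5 : p * ν * (1 - ν)⁻¹ = Γ := by
        have h6 : 1 - ν = p / (p + Γ) := by
          rw [hν']; field_simp; ring
        rw [h6, hν']
        field_simp
      rwa [h5] at h4
    have h6 := hmu.sub h2
    simp only [sub_self] at h6
    refine h6.congr fun n => ?_
    rw [sum_sub_distrib]
  intro n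
  have hmain : tv (law (unif V) G.W val n) (law ![p0, p1] (sticky ![p0, p1] ν) id n)
      ≤ 2 * C0 * lam ^ 2 / Real.sqrt ((n : ℝ) + 1) := by
    rw [tv_eq, hst]
    have h2 := l1_bound (ℓ := 2 * lam) hpp (n + 1) (by omega)
      (fun j => law (unif V) G.W val n j - law ![p0, p1] (stickyK ![p0, p1] ν) id n j)
      ((n + 1 : ℝ) * p1) (fun η θ hη hθ => by
        have h3 := law_gen S2 n (zt η θ)
        have h4 := law_gen S3 n (zt η θ)
        have h5 : ∑ k ∈ range (n + 1 + 1),
            ((law (unif V) G.W val n k - law ![p0, p1] (stickyK ![p0, p1] ν) id n k : ℝ) : ℂ)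
              * Complex.exp (zt η θ * ((k - (n + 1 : ℝ) * p1 : ℝ) : ℂ))
            = phi (unif V) G.W (fun v => Complex.exp (zt η θ * (cen val p1 v : ℝ))) (n + 1)
              - phi ![p0, p1] (stickyK ![p0, p1] ν)
                (fun v => Complex.exp (zt η θ * (cen (id : Fin 2 → Fin 2) p1 v : ℝ))) (n + 1) := by
          rw [← h3, ← h4, ← sum_sub_distrib]
          refine sum_congr rfl fun k _ => ?_
          rw [Complex.ofReal_sub, sub_mul]
        rw [h5]
        exact two_sys h0 h1 hp hη hθ (by linarith) S2 S3 (cen_cases hp) (cen_cases hp)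
          hmatch (n + 1))
    have h7 : ((n + 1 : ℕ) : ℝ) = (n : ℝ) + 1 := by push_cast; ring
    rw [h7] at h2
    rw [div_le_iff₀ (by norm_num : (0 : ℝ) < 2)]
    refine h2.trans (le_of_eq ?_)
    rw [hC0]; ring
  refine ⟨hmain, hmain.trans ?_⟩
  apply div_le_div_of_nonneg_right _ (Real.sqrt_nonneg _)
  have : lam ^ 2 ≤ lam := by nlinarith
  have := mul_le_mul_of_nonneg_left this (by positivity : 0 ≤ 2 * C0)
  linarith

end Pool.Agent.Results.MP_866acd_pr.ExpanderWalkTV
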